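import Mathlib

/-!
# Every sequence is a domination sequence

We answer Q1 of MP_e4a648_co: a sequence `m 1, ..., m r` of natural numbers is a domination sequence
if and only if `m 1 ≥ m 2 ≥ ... ≥ m r ≥ r`; so the trivial necessary condition is also sufficient.
The graph can always be chosen connected.

Construction (for `m 1 > r`).  Take pairwise disjoint blocks `X_1, ..., X_r` with
`|X_k| = m k - r + k`, a vertex `c` and a vertex `z`; `c` and the blocks form a clique, and `z` is
adjacent to all vertices of this clique.  For `j = 1, ..., r` take a clique `T_j`, whose vertices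
are the choices `f` of one element from each block; `f` in `T_j` is adjacent to `f(k)` in `X_k` for
all `k ≥ j`, and, if `j = 1`, also to `c`.  A set is dominating if and only if it contains
(A) some block `X_k` and a vertex of each `T_j` with `j > k`, or (B) `c` and a vertex of each `T_j`
with `j > 1`, or (C) a vertex of the first clique or `z`, and a vertex of each `T_j`.
-/

namespace Pool.Agent.Results.MP_e4a648_co.AllSequences

section defs

variable {V : Type*}

/-- `X` is a dominating set of `G`: every vertex outside `X` has a neighbour in `X`. -/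
def IsDominating (G : SimpleGraph V) (X : Finset V) : Prop :=
  ∀ v, v ∉ X → ∃ x ∈ X, G.Adj v x

/-- The domination number `γ(G)`: the least size of a dominating set. -/
noncomputable def dominationNumber (G : SimpleGraph V) : ℕ :=
  sInf {c | ∃ X : Finset V, IsDominating G X ∧ X.card = c}

open Classical in
/-- `X` is a `k`-minimal dominating set: it is dominating, and for `1 ≤ l ≤ k`, for each subset `U`
of `X` with `l` elements and each set `R` of `l - 1` vertices, `(X \ U) ∪ R` is not dominating. -/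
def IsKMinimal (G : SimpleGraph V) (k : ℕ) (X : Finset V) : Prop :=
  IsDominating G X ∧ ∀ l, 1 ≤ l → l ≤ k → ∀ U R : Finset V, U ⊆ X → U.card = l → R.card = l - 1 →
    ¬ IsDominating G ((X \ U) ∪ R)

/-- `Γ_k(G)`: the largest size of a `k`-minimal dominating set. -/
noncomputable def upperDomination (G : SimpleGraph V) (k : ℕ) : ℕ :=
  sSup {c | ∃ X : Finset V, IsKMinimal G k X ∧ X.card = c}

/-- `γ(G) = r` and `Γ_k(G) = m k` for `k = 1, ..., r`. -/
def Realizes (G : SimpleGraph V) (r : ℕ) (m : ℕ → ℕ) : Prop :=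
  dominationNumber G = r ∧ ∀ k, 1 ≤ k → k ≤ r → upperDomination G k = m k

end defs

section general

variable {V : Type*} [Fintype V] (G : SimpleGraph V)

lemma isDominating_univ : IsDominating G (Finset.univ : Finset V) := fun v hv =>
  absurd (Finset.mem_univ v) hv

lemma exists_card_eq : ∃ X : Finset V, IsDominating G X ∧ X.card = dominationNumber G :=
  Nat.sInf_mem (s := {c | ∃ X : Finset V, IsDominating G X ∧ X.card = c})
    ⟨_, Finset.univ, isDominating_univ G, rfl⟩

omit [Fintype V] in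
lemma dominationNumber_le {X : Finset V} (h : IsDominating G X) : dominationNumber G ≤ X.card :=
  Nat.sInf_le ⟨X, h, rfl⟩

lemma bddAbove (k : ℕ) : BddAbove {c | ∃ X : Finset V, IsKMinimal G k X ∧ X.card = c} := by
  refine ⟨Fintype.card V, ?_⟩
  rintro c ⟨X, -, rfl⟩
  exact Finset.card_le_univ X

omit [Fintype V] in
lemma isKMinimal_of_card {X : Finset V} (h : IsDominating G X)
    (hc : X.card ≤ dominationNumber G) (k : ℕ) : IsKMinimal G k X := by
  classical
  refine ⟨h, fun l hl _ U R hU hUc hRc hd => ?_⟩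
  have h1 := dominationNumber_le G hd
  have h2 : ((X \ U) ∪ R).card ≤ (X \ U).card + R.card := by
    convert Finset.card_union_le _ _
  have h3 : (X \ U).card + U.card = X.card := Finset.card_sdiff_add_card_eq_card hU
  omega

omit [Fintype V] in
lemma IsKMinimal.mono {G : SimpleGraph V} {X : Finset V} {k k' : ℕ} (h : IsKMinimal G k X)
    (hk : k' ≤ k) : IsKMinimal G k' X :=
  ⟨h.1, fun l hl hl' => h.2 l hl (hl'.trans hk)⟩

lemma le_upperDomination {X : Finset V} {k : ℕ} (h : IsKMinimal G k X) :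
    X.card ≤ upperDomination G k := le_csSup (bddAbove G k) ⟨X, h, rfl⟩

lemma dominationNumber_le_upperDomination (k : ℕ) :
    dominationNumber G ≤ upperDomination G k := by
  obtain ⟨X, hX, hc⟩ := exists_card_eq G
  rw [← hc]
  exact le_upperDomination G (isKMinimal_of_card G hX hc.le k)

lemma upperDomination_le {k b : ℕ} (h : ∀ X, IsKMinimal G k X → X.card ≤ b) :
    upperDomination G k ≤ b := by
  obtain ⟨X, hX, hc⟩ := exists_card_eq G
  refine csSup_le ⟨X.card, X, isKMinimal_of_card G hX hc.le k, rfl⟩ ?_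
  rintro c ⟨X, hX, rfl⟩
  exact h X hX

lemma upperDomination_anti {k k' : ℕ} (hk : k ≤ k') :
    upperDomination G k' ≤ upperDomination G k :=
  upperDomination_le G fun _ hX => le_upperDomination G (hX.mono hk)

omit [Fintype V] in
/-- a dominating subset of a `k`-minimal dominating set, `k ≥ 1`, is the whole set -/
lemma eq_of_subset {G : SimpleGraph V} {S S' : Finset V} {k : ℕ} (hk : 1 ≤ k)
    (h : IsKMinimal G k S) (hS : S' ⊆ S)
    (hd : ∀ S'' : Finset V, S' ⊆ S'' → IsDominating G S'') : S = S' := by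
  classical
  by_contra hne
  obtain ⟨u, hu, hu'⟩ := Finset.exists_of_ssubset (lt_of_le_of_ne hS (Ne.symm hne))
  refine h.2 1 le_rfl hk {u} ∅ (by simpa using hu) (by simp) (by simp) ?_
  apply hd
  intro y hy
  rw [Finset.mem_union, Finset.mem_sdiff, Finset.mem_singleton]
  exact Or.inl ⟨hS hy, fun h => hu' (h ▸ hy)⟩

end general


section construction

/-- the vertices of the graph -/
inductive W (r : ℕ) (N : Fin r → ℕ) : Type
  | z : W r N
  | c : W r N
  | x (k : Fin r) (i : Fin (N k)) : W r N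
  | t (j : Fin r) (f : (k : Fin r) → Fin (N k)) : W r N

variable {r : ℕ} {N : Fin r → ℕ}

/-- an injection of the vertex set into a finite type -/
def W.toSum : W r N → Option (Option ((Σ k : Fin r, Fin (N k)) ⊕
    (Fin r × ((k : Fin r) → Fin (N k)))))
  | .z => none
  | .c => some none
  | .x k i => some (some (Sum.inl ⟨k, i⟩))
  | .t j f => some (some (Sum.inr (j, f)))

lemma W.toSum_injective : Function.Injective (W.toSum (r := r) (N := N)) := by
  intro a b h
  cases a <;> cases b <;> simp_all [W.toSum]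

noncomputable instance : Fintype (W r N) := Fintype.ofInjective W.toSum W.toSum_injective

/-- the adjacency relation (one direction; loops are to be ignored) -/
def rel : W r N → W r N → Prop
  | .z, .c => True
  | .z, .x _ _ => True
  | .c, .x _ _ => True
  | .x _ _, .x _ _ => True
  | .c, .t j _ => (j : ℕ) = 0
  | .x k i, .t j f => j ≤ k ∧ f k = i
  | .t j _, .t j' _ => j = j'
  | _, _ => False

/-- the graph -/
def Gr (r : ℕ) (N : Fin r → ℕ) : SimpleGraph (W r N) := SimpleGraph.fromRel rel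

lemma dom_iff {S : Finset (W r N)} :
    IsDominating (Gr r N) S ↔ ∀ v, ∃ s ∈ S, v = s ∨ rel v s ∨ rel s v := by
  constructor
  · intro h v
    by_cases hv : v ∈ S
    · exact ⟨v, hv, Or.inl rfl⟩
    · obtain ⟨s, hs, hvs⟩ := h v hv
      exact ⟨s, hs, Or.inr ((SimpleGraph.fromRel_adj _ _ _).mp hvs).2⟩
  · intro h v hv
    obtain ⟨s, hs, hvs⟩ := h v
    refine ⟨s, hs, (SimpleGraph.fromRel_adj _ _ _).mpr ⟨?_, ?_⟩⟩
    · rintro rfl
      exact hv hs
    · rcases hvs with rfl | h
      · exact absurd hs hv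
      · exact h

/-- type (A) sets -/
def TA (S : Finset (W r N)) (k : Fin r) : Prop :=
  (∀ i, W.x k i ∈ S) ∧ ∀ j : Fin r, k < j → ∃ f, W.t j f ∈ S

/-- type (B) sets -/
def TB (S : Finset (W r N)) : Prop :=
  W.c ∈ S ∧ ∀ j : Fin r, 0 < (j : ℕ) → ∃ f, W.t j f ∈ S

/-- type (C) sets -/
def TC (S : Finset (W r N)) : Prop :=
  (W.z ∈ S ∨ W.c ∈ S ∨ ∃ k i, W.x k i ∈ S) ∧ ∀ j : Fin r, ∃ f, W.t j f ∈ S

lemma dom_z {S : Finset (W r N)} (h : IsDominating (Gr r N) S) :
    W.z ∈ S ∨ W.c ∈ S ∨ ∃ k i, W.x k i ∈ S := by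
  obtain ⟨s, hs, h⟩ := dom_iff.mp h W.z
  cases s with
  | z => exact Or.inl hs
  | c => exact Or.inr (Or.inl hs)
  | x k i => exact Or.inr (Or.inr ⟨k, i, hs⟩)
  | t j f => simp [rel] at h

lemma dom_t (hN : ∀ k, 0 < N k) {S : Finset (W r N)} (h : IsDominating (Gr r N) S) (j : Fin r) :
    (∃ f, W.t j f ∈ S) ∨ ((j : ℕ) = 0 ∧ W.c ∈ S) ∨ ∃ k, j ≤ k ∧ ∀ i, W.x k i ∈ S := by
  classical
  by_contra hcon
  push Not at hcon
  obtain ⟨h1, h2, h3⟩ := hcon
  have h3' : ∀ k, ∃ i, j ≤ k → W.x k i ∉ S := by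
    intro k
    by_cases hk : j ≤ k
    · obtain ⟨i, hi⟩ := h3 k hk
      exact ⟨i, fun _ => hi⟩
    · exact ⟨⟨0, hN k⟩, fun h => absurd h hk⟩
  choose f hf using h3'
  obtain ⟨s, hs, hd⟩ := dom_iff.mp h (W.t j f)
  cases s with
  | z => simp [rel] at hd
  | c =>
    simp only [rel, reduceCtorEq, false_or] at hd
    exact h2 hd hs
  | x k i =>
    simp only [rel, reduceCtorEq, false_or] at hd
    obtain ⟨hd1, hd2⟩ := hd
    apply hf k hd1
    rw [hd2]
    exact hs
  | t j' f' =>
    have : j = j' := by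
      rcases hd with hd | hd | hd
      · injection hd
      · exact hd
      · exact hd.symm
    subst this
    exact h1 f' hs

theorem types_of_dom (hN : ∀ k, 0 < N k) {S : Finset (W r N)}
    (h : IsDominating (Gr r N) S) : (∃ k, TA S k) ∨ TB S ∨ TC S := by
  classical
  by_cases hall : ∀ j : Fin r, ∃ f, W.t j f ∈ S
  · exact Or.inr (Or.inr ⟨dom_z h, hall⟩)
  · push Not at hall
    obtain ⟨j0, hj0⟩ := hall
    set B : Finset (Fin r) := Finset.univ.filter (fun j => ∀ f, W.t j f ∉ S) with hB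
    have hBne : B.Nonempty := ⟨j0, by simp [hB, hj0]⟩
    set j := B.max' hBne with hj
    have hjB : j ∈ B := Finset.max'_mem _ _
    have hjt : ∀ f, W.t j f ∉ S := (Finset.mem_filter.mp hjB).2
    have hbig : ∀ j', j < j' → ∃ f, W.t j' f ∈ S := by
      intro j' hj'
      by_contra hcon
      push Not at hcon
      have : j' ∈ B := by simp [hB, hcon]
      exact absurd (Finset.le_max' _ _ this) (not_le.mpr hj')
    rcases dom_t hN h j with ⟨f, hf⟩ | ⟨h0, hc⟩ | ⟨k, hk, hx⟩
    · exact absurd hf (hjt f)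
    · refine Or.inr (Or.inl ⟨hc, fun j' hj' => hbig j' ?_⟩)
      rw [Fin.lt_def, h0]
      exact hj'
    · exact Or.inl ⟨k, hx, fun j' hj' => hbig j' (lt_of_le_of_lt hk hj')⟩

lemma dom_of_TA (hN : ∀ k, 0 < N k) {S : Finset (W r N)} {k : Fin r} (h : TA S k) :
    IsDominating (Gr r N) S := by
  rw [dom_iff]
  intro v
  cases v with
  | z => exact ⟨_, h.1 ⟨0, hN k⟩, by simp [rel]⟩
  | c => exact ⟨_, h.1 ⟨0, hN k⟩, by simp [rel]⟩
  | x k' i => exact ⟨_, h.1 ⟨0, hN k⟩, by simp [rel]⟩
  | t j f =>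
    by_cases hj : j ≤ k
    · exact ⟨_, h.1 (f k), by simp [rel, hj]⟩
    · obtain ⟨f', hf'⟩ := h.2 j (not_le.mp hj)
      exact ⟨_, hf', by simp [rel]⟩

lemma dom_of_TB {S : Finset (W r N)} (h : TB S) : IsDominating (Gr r N) S := by
  rw [dom_iff]
  intro v
  cases v with
  | z => exact ⟨_, h.1, by simp [rel]⟩
  | c => exact ⟨_, h.1, by simp [rel]⟩
  | x k' i => exact ⟨_, h.1, by simp [rel]⟩
  | t j f =>
    by_cases hj : (j : ℕ) = 0
    · exact ⟨_, h.1, by simp [rel, hj]⟩
    · obtain ⟨f', hf'⟩ := h.2 j (Nat.pos_of_ne_zero hj)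
      exact ⟨_, hf', by simp [rel]⟩

lemma dom_of_TC {S : Finset (W r N)} (h : TC S) : IsDominating (Gr r N) S := by
  rw [dom_iff]
  have key : ∀ s ∈ S, (s = W.z ∨ s = W.c ∨ ∃ k i, s = W.x k i) →
      ∀ v : W r N, ∃ s ∈ S, v = s ∨ rel v s ∨ rel s v := by
    intro s hs hs' v
    cases v with
    | z => exact ⟨s, hs, by rcases hs' with rfl | rfl | ⟨k, i, rfl⟩ <;> simp [rel]⟩
    | c => exact ⟨s, hs, by rcases hs' with rfl | rfl | ⟨k, i, rfl⟩ <;> simp [rel]⟩
    | x k' i => exact ⟨s, hs, by rcases hs' with rfl | rfl | ⟨k, i, rfl⟩ <;> simp [rel]⟩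
    | t j f =>
      obtain ⟨f', hf'⟩ := h.2 j
      exact ⟨_, hf', by simp [rel]⟩
  rcases h.1 with h1 | h1 | ⟨k, i, h1⟩
  · exact key _ h1 (Or.inl rfl)
  · exact key _ h1 (Or.inr (Or.inl rfl))
  · exact key _ h1 (Or.inr (Or.inr ⟨k, i, rfl⟩))

lemma TA.mono {S S' : Finset (W r N)} {k : Fin r} (h : TA S k) (hS : S ⊆ S') : TA S' k :=
  ⟨fun i => hS (h.1 i), fun j hj => by
    obtain ⟨f, hf⟩ := h.2 j hj
    exact ⟨f, hS hf⟩⟩

lemma TB.mono {S S' : Finset (W r N)} (h : TB S) (hS : S ⊆ S') : TB S' :=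
  ⟨hS h.1, fun j hj => by
    obtain ⟨f, hf⟩ := h.2 j hj
    exact ⟨f, hS hf⟩⟩

lemma TC.mono {S S' : Finset (W r N)} (h : TC S) (hS : S ⊆ S') : TC S' :=
  ⟨by
    rcases h.1 with h1 | h1 | ⟨k, i, h1⟩
    · exact Or.inl (hS h1)
    · exact Or.inr (Or.inl (hS h1))
    · exact Or.inr (Or.inr ⟨k, i, hS h1⟩), fun j => by
    obtain ⟨f, hf⟩ := h.2 j
    exact ⟨f, hS hf⟩⟩

/-! ### Counting -/

/-- a label used for counting -/
def lab : W r N → ℕ × ℕ
  | .z => (0, 0)
  | .c => (0, 0)
  | .x k i => ((k : ℕ) + 1, i)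
  | .t j _ => (0, (j : ℕ) + 1)

lemma card_ge (R : Finset (W r N)) (P : Finset (ℕ × ℕ)) (h : ∀ p ∈ P, ∃ w ∈ R, lab w = p) :
    P.card ≤ R.card := by
  classical
  have : P ⊆ R.image lab := fun p hp => by
    obtain ⟨w, hw, hwp⟩ := h p hp
    exact Finset.mem_image.mpr ⟨w, hw, hwp⟩
  exact (Finset.card_le_card this).trans Finset.card_image_le

lemma card_block (R : Finset (W r N)) (k : Fin r) (a b : ℕ) (hb : b ≤ r)
    (hx : ∀ i, W.x k i ∈ R) (ht : ∀ j : Fin r, a ≤ (j : ℕ) → (j : ℕ) < b → ∃ f, W.t j f ∈ R) :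
    N k + (b - a) ≤ R.card := by
  classical
  have h := card_ge R (({(k : ℕ) + 1} ×ˢ Finset.range (N k)) ∪
    ({0} ×ˢ Finset.Ico (a + 1) (b + 1))) ?_
  · rw [Finset.card_union_of_disjoint] at h
    · simpa using h
    · rw [Finset.disjoint_left]
      rintro ⟨p, q⟩ h1 h2
      simp only [Finset.mem_product, Finset.mem_singleton] at h1 h2
      omega
  · rintro ⟨p, q⟩ h1
    simp only [Finset.mem_union, Finset.mem_product, Finset.mem_singleton, Finset.mem_range,
      Finset.mem_Ico] at h1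
    rcases h1 with ⟨rfl, hq⟩ | ⟨rfl, hq1, hq2⟩
    · exact ⟨_, hx ⟨q, hq⟩, rfl⟩
    · obtain ⟨q, rfl⟩ : ∃ q', q = q' + 1 := ⟨q - 1, by omega⟩
      obtain ⟨f, hf⟩ := ht ⟨q, by omega⟩ (by simp; omega) (by simp; omega)
      exact ⟨_, hf, rfl⟩

lemma card_ts (R : Finset (W r N)) (a b : ℕ) (hb : b ≤ r)
    (ht : ∀ j : Fin r, a ≤ (j : ℕ) → (j : ℕ) < b → ∃ f, W.t j f ∈ R) :
    b - a ≤ R.card := by
  classical
  have h := card_ge R ({0} ×ˢ Finset.Ico (a + 1) (b + 1)) ?_
  · simpa using h
  · rintro ⟨p, q⟩ h1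
    simp only [Finset.mem_product, Finset.mem_singleton, Finset.mem_Ico] at h1
    obtain ⟨rfl, hq1, hq2⟩ := h1
    obtain ⟨q, rfl⟩ : ∃ q', q = q' + 1 := ⟨q - 1, by omega⟩
    obtain ⟨f, hf⟩ := ht ⟨q, by omega⟩ (by simp; omega) (by simp; omega)
    exact ⟨_, hf, rfl⟩

lemma card_cts (R : Finset (W r N)) (a b : ℕ) (hb : b ≤ r) (hc : W.c ∈ R)
    (ht : ∀ j : Fin r, a ≤ (j : ℕ) → (j : ℕ) < b → ∃ f, W.t j f ∈ R) :
    1 + (b - a) ≤ R.card := by
  classical
  have h := card_ge R (({0} ×ˢ {0}) ∪ ({0} ×ˢ Finset.Ico (a + 1) (b + 1))) ?_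
  · rw [Finset.card_union_of_disjoint] at h
    · simpa using h
    · rw [Finset.disjoint_left]
      rintro ⟨p, q⟩ h1 h2
      simp only [Finset.mem_product, Finset.mem_singleton, Finset.mem_Ico] at h1 h2
      omega
  · rintro ⟨p, q⟩ h1
    simp only [Finset.mem_union, Finset.mem_product, Finset.mem_singleton,
      Finset.mem_Ico] at h1
    rcases h1 with ⟨rfl, rfl⟩ | ⟨rfl, hq1, hq2⟩
    · exact ⟨_, hc, rfl⟩
    · obtain ⟨q, rfl⟩ : ∃ q', q = q' + 1 := ⟨q - 1, by omega⟩
      obtain ⟨f, hf⟩ := ht ⟨q, by omega⟩ (by simp; omega) (by simp; omega)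
      exact ⟨_, hf, rfl⟩

lemma sub_A {S : Finset (W r N)} {k : Fin r} (h : TA S k) :
    ∃ S' ⊆ S, TA S' k ∧ S'.card ≤ N k + (r - 1 - k) := by
  classical
  choose f hf using h.2
  refine ⟨Finset.univ.image (W.x k) ∪ (Finset.Ioi k).attach.image
    (fun j => W.t j.1 (f j.1 (Finset.mem_Ioi.mp j.2))), ?_, ⟨?_, ?_⟩, ?_⟩
  · intro y hy
    simp only [Finset.mem_union, Finset.mem_image, Finset.mem_univ, true_and,
      Finset.mem_attach] at hy
    rcases hy with ⟨i, rfl⟩ | ⟨j, rfl⟩
    · exact h.1 i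
    · exact hf _ _
  · intro i
    simp
  · intro j hj
    refine ⟨f j hj, Finset.mem_union_right _ (Finset.mem_image.mpr
      ⟨⟨j, Finset.mem_Ioi.mpr hj⟩, Finset.mem_attach _ _, rfl⟩)⟩
  · refine (Finset.card_union_le _ _).trans (Nat.add_le_add ?_ ?_)
    · exact Finset.card_image_le.trans (by simp)
    · exact Finset.card_image_le.trans (by simp)

lemma sub_B (hr : 0 < r) {S : Finset (W r N)} (h : TB S) :
    ∃ S' ⊆ S, TB S' ∧ S'.card ≤ r := by
  classical
  choose f hf using h.2
  have hm : ∀ j : Fin r, j ∈ Finset.Ioi (⟨0, hr⟩ : Fin r) → 0 < (j : ℕ) := fun j hj => by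
    simpa [Fin.lt_def] using hj
  refine ⟨insert W.c ((Finset.Ioi (⟨0, hr⟩ : Fin r)).attach.image
    (fun j => W.t j.1 (f j.1 (hm j.1 j.2)))), ?_, ⟨?_, ?_⟩, ?_⟩
  · intro y hy
    simp only [Finset.mem_insert, Finset.mem_image, Finset.mem_attach, true_and] at hy
    rcases hy with rfl | ⟨j, rfl⟩
    · exact h.1
    · exact hf _ _
  · simp
  · intro j hj
    have hj' : j ∈ Finset.Ioi (⟨0, hr⟩ : Fin r) := by simpa [Fin.lt_def] using hj
    exact ⟨f j hj, Finset.mem_insert_of_mem (Finset.mem_image.mpr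
      ⟨⟨j, hj'⟩, Finset.mem_attach _ _, rfl⟩)⟩
  · refine (Finset.card_insert_le _ _).trans ?_
    have : ((Finset.Ioi (⟨0, hr⟩ : Fin r)).attach.image
      (fun j => W.t j.1 (f j.1 (hm j.1 j.2)))).card ≤ r - 1 - 0 :=
      Finset.card_image_le.trans (by simp)
    omega

open Classical in
lemma sub_C {S : Finset (W r N)} (h : TC S) :
    ∃ (w : W r N) (f : Fin r → (k : Fin r) → Fin (N k)),
      insert w (Finset.univ.image (fun j => W.t j (f j))) ⊆ S ∧
      TC (insert w (Finset.univ.image (fun j => W.t j (f j)))) ∧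
      (insert w (Finset.univ.image (fun j => W.t j (f j)))).card ≤ r + 1 ∧
      ∀ j g, w ≠ W.t j g := by
  choose f hf using h.2
  have key : ∀ w ∈ S, (w = W.z ∨ w = W.c ∨ ∃ k i, w = W.x k i) →
    ∃ (w : W r N) (f : Fin r → (k : Fin r) → Fin (N k)),
      insert w (Finset.univ.image (fun j => W.t j (f j))) ⊆ S ∧
      TC (insert w (Finset.univ.image (fun j => W.t j (f j)))) ∧
      (insert w (Finset.univ.image (fun j => W.t j (f j)))).card ≤ r + 1 ∧
      ∀ j g, w ≠ W.t j g := by
    intro w hw hw'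
    refine ⟨w, f, ?_, ⟨?_, ?_⟩, ?_, ?_⟩
    · intro y hy
      simp only [Finset.mem_insert, Finset.mem_image, Finset.mem_univ, true_and] at hy
      rcases hy with rfl | ⟨j, rfl⟩
      · exact hw
      · exact hf _
    · rcases hw' with rfl | rfl | ⟨k, i, rfl⟩
      · exact Or.inl (Finset.mem_insert_self _ _)
      · exact Or.inr (Or.inl (Finset.mem_insert_self _ _))
      · exact Or.inr (Or.inr ⟨k, i, Finset.mem_insert_self _ _⟩)
    · intro j
      exact ⟨f j, Finset.mem_insert_of_mem (Finset.mem_image_of_mem _ (Finset.mem_univ _))⟩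
    · refine (Finset.card_insert_le _ _).trans (Nat.add_le_add_right ?_ 1)
      exact Finset.card_image_le.trans (by simp)
    · intro j g hg
      rcases hw' with rfl | rfl | ⟨k, i, rfl⟩ <;> simp at hg
  rcases h.1 with h1 | h1 | ⟨k, i, h1⟩
  · exact key _ h1 (Or.inl rfl)
  · exact key _ h1 (Or.inr (Or.inl rfl))
  · exact key _ h1 (Or.inr (Or.inr ⟨k, i, rfl⟩))

/-- the domination number of the graph is `r` -/
theorem gamma_eq (hr : 0 < r) (hN : ∀ k : Fin r, (k : ℕ) + 1 ≤ N k) :
    dominationNumber (Gr r N) = r := by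
  classical
  have hN0 : ∀ k, 0 < N k := fun k => lt_of_lt_of_le (Nat.succ_pos _) (hN k)
  apply le_antisymm
  · have hTB : TB (Finset.univ : Finset (W r N)) :=
      ⟨Finset.mem_univ _, fun j _ => ⟨fun k => ⟨0, hN0 k⟩, Finset.mem_univ _⟩⟩
    obtain ⟨S', -, h1, h2⟩ := sub_B hr hTB
    exact (dominationNumber_le _ (dom_of_TB h1)).trans h2
  · obtain ⟨S, hS, hc⟩ := exists_card_eq (Gr r N)
    rw [← hc]
    rcases types_of_dom hN0 hS with ⟨k, h⟩ | h | h
    · have h1 := card_block S k (k + 1) r le_rfl h.1 (fun j hj _ => h.2 j (by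
        rw [Fin.lt_def]; omega))
      have h2 := hN k
      have h3 := k.isLt
      omega
    · have h1 := card_cts S 1 r le_rfl h.1 (fun j hj _ => h.2 j (by omega))
      omega
    · have h1 := card_ts S 0 r le_rfl (fun j hj _ => h.2 j)
      omega

/-- the block `X_{k+1}` together with one vertex from each later clique is a
`(k+1)`-minimal dominating set -/
theorem exists_kminimal (hN : ∀ k : Fin r, (k : ℕ) + 1 ≤ N k) (k : Fin r) :
    ∃ S : Finset (W r N), IsKMinimal (Gr r N) (k + 1) S ∧ N k + (r - (k + 1)) ≤ S.card := by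
  classical
  have hN0 : ∀ k, 0 < N k := fun k => lt_of_lt_of_le (Nat.succ_pos _) (hN k)
  set f0 : (k : Fin r) → Fin (N k) := fun k => ⟨0, hN0 k⟩ with hf0
  set S : Finset (W r N) := Finset.univ.image (W.x k) ∪ (Finset.Ioi k).image (fun j => W.t j f0)
    with hS
  have hxk : ∀ i, W.x k i ∈ S := fun i => by simp [hS]
  have htk : ∀ j, k < j → W.t j f0 ∈ S := fun j hj => by simp [hS, hj]
  have hx' : ∀ k' i, k' ≠ k → W.x k' i ∉ S := by
    intro k' i hk' hmem
    simp only [hS, Finset.mem_union, Finset.mem_image, Finset.mem_univ, true_and,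
      Finset.mem_Ioi] at hmem
    rcases hmem with ⟨a, ha⟩ | ⟨a, ha, ha'⟩
    · injection ha with h1 h2
      exact hk' h1.symm
    · cases ha'
  have hc' : W.c ∉ S := by simp [hS]
  have ht' : ∀ j f, j ≤ k → W.t j f ∉ S := by
    intro j f hj hmem
    simp only [hS, Finset.mem_union, Finset.mem_image, Finset.mem_univ, true_and,
      Finset.mem_Ioi] at hmem
    rcases hmem with ⟨a, ha⟩ | ⟨a, ha, ha'⟩
    · cases ha
    · injection ha' with h1 h2
      subst h1
      exact absurd ha (not_lt.mpr hj)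
  have hTA : TA S k := ⟨hxk, fun j hj => ⟨f0, htk j hj⟩⟩
  have hcard : S.card ≤ N k + (r - 1 - k) := by
    refine (Finset.card_union_le _ _).trans (Nat.add_le_add ?_ ?_)
    · exact Finset.card_image_le.trans (by simp)
    · exact Finset.card_image_le.trans (by simp)
  refine ⟨S, ⟨dom_of_TA hN0 hTA, ?_⟩, ?_⟩
  · intro l hl1 hlk U R hU hUc hRc hd
    have hk := k.isLt
    have hsize : ((S \ U) ∪ R).card + 1 ≤ S.card := by
      have h2 : ((S \ U) ∪ R).card ≤ (S \ U).card + R.card := Finset.card_union_le _ _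
      have h3 : (S \ U).card + U.card = S.card := Finset.card_sdiff_add_card_eq_card hU
      omega
    have hmemR : ∀ w, w ∉ S → w ∈ (S \ U) ∪ R → w ∈ R := by
      intro w hw hw'
      rcases Finset.mem_union.mp hw' with h | h
      · exact absurd (Finset.mem_sdiff.mp h).1 hw
      · exact h
    rcases types_of_dom hN0 hd with ⟨k', h⟩ | h | h
    · by_cases hkk : k' = k
      · subst hkk
        have h1 := card_block _ k' (k' + 1) r le_rfl h.1 (fun j hj _ => h.2 j (by
          rw [Fin.lt_def]; omega))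
        omega
      · have h1 := card_block R k' (k' + 1) (k + 1) (by omega)
          (fun i => hmemR _ (hx' k' i hkk) (h.1 i))
          (fun j hj hj' => by
            obtain ⟨f, hf⟩ := h.2 j (by rw [Fin.lt_def]; omega)
            exact ⟨f, hmemR _ (ht' j f (by rw [Fin.le_def]; omega)) hf⟩)
        have h2 := hN k'
        omega
    · have h1 := card_cts R 1 (k + 1) (by omega) (hmemR _ hc' h.1)
          (fun j hj hj' => by
            obtain ⟨f, hf⟩ := h.2 j (by omega)
            exact ⟨f, hmemR _ (ht' j f (by rw [Fin.le_def]; omega)) hf⟩)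
      omega
    · have h1 := card_ts R 0 (k + 1) (by omega)
          (fun j hj hj' => by
            obtain ⟨f, hf⟩ := h.2 j
            exact ⟨f, hmemR _ (ht' j f (by rw [Fin.le_def]; omega)) hf⟩)
      omega
  · exact card_block S k (k + 1) r le_rfl hxk (fun j hj _ => ⟨f0, htk j (by
      rw [Fin.lt_def]; omega)⟩)

/-- the bound for `j`-minimal dominating sets -/
theorem kminimal_le (hr : 0 < r) (hN : ∀ k : Fin r, (k : ℕ) + 1 ≤ N k) (j : ℕ) (hj : 1 ≤ j)
    {S : Finset (W r N)} (h : IsKMinimal (Gr r N) j S) :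
    (∃ k : Fin r, S.card ≤ N k + (r - 1 - k) ∧ (j ≤ k + 1 ∨ N k ≤ k + 1)) ∨
      S.card ≤ r ∨ (j = 1 ∧ S.card ≤ r + 1) := by
  classical
  have hN0 : ∀ k, 0 < N k := fun k => lt_of_lt_of_le (Nat.succ_pos _) (hN k)
  set f0 : (k : Fin r) → Fin (N k) := fun k => ⟨0, hN0 k⟩ with hf0
  rcases types_of_dom hN0 h.1 with ⟨k, hk⟩ | hk | hk
  · left
    obtain ⟨S', hS', hTA, hcard⟩ := sub_A hk
    have hSS' : S = S' := eq_of_subset hj h hS' (fun S'' hS'' => dom_of_TA hN0 (hTA.mono hS''))
    refine ⟨k, hSS' ▸ hcard, ?_⟩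
    by_contra hcon
    push Not at hcon
    obtain ⟨hcon1, hcon2⟩ := hcon
    have hxc : (Finset.univ.image (W.x (N := N) k)).card = N k := by
      rw [Finset.card_image_of_injective _ (fun a b hab => by injection hab)]
      simp
    obtain ⟨U, hU, hUc⟩ := Finset.exists_subset_card_eq
      (s := Finset.univ.image (W.x (N := N) k)) (n := (k : ℕ) + 2) (by rw [hxc]; omega)
    have hk0 := k.isLt
    have hc1 : (W.c : W r N) ∉ (Finset.Ioc (⟨0, hr⟩ : Fin r) k).image (fun j => W.t j f0) := by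
      simp
    refine h.2 (k + 2) (by omega) (by omega) U
      (insert W.c ((Finset.Ioc (⟨0, hr⟩ : Fin r) k).image (fun j => W.t j f0))) ?_ hUc ?_ ?_
    · intro y hy
      obtain ⟨i, -, rfl⟩ := Finset.mem_image.mp (hU hy)
      exact hk.1 i
    · rw [Finset.card_insert_of_notMem hc1, Finset.card_image_of_injective _
        (fun a b hab => by injection hab)]
      simp
    · apply dom_of_TB
      refine ⟨by simp, fun j' hj' => ?_⟩
      by_cases hjk : j' ≤ k
      · refine ⟨f0, Finset.mem_union_right _ (Finset.mem_insert_of_mem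
          (Finset.mem_image.mpr ⟨j', ?_, rfl⟩))⟩
        rw [Finset.mem_Ioc, Fin.lt_def]
        exact ⟨hj', hjk⟩
      · obtain ⟨f, hf⟩ := hk.2 j' (not_le.mp hjk)
        refine ⟨f, Finset.mem_union_left _ (Finset.mem_sdiff.mpr ⟨hf, fun hfU => ?_⟩)⟩
        obtain ⟨i, -, hi⟩ := Finset.mem_image.mp (hU hfU)
        cases hi
  · right; left
    obtain ⟨S', hS', hTB, hcard⟩ := sub_B hr hk
    have hSS' : S = S' := eq_of_subset hj h hS' (fun S'' hS'' => dom_of_TB (hTB.mono hS''))
    exact hSS' ▸ hcard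
  · right; right
    obtain ⟨w, f, hS', hTC, hcard, hw⟩ := sub_C hk
    have hSS' := eq_of_subset hj h hS' (fun S'' hS'' => dom_of_TC (hTC.mono hS''))
    refine ⟨?_, by rw [hSS']; exact hcard⟩
    by_contra hj1
    refine h.2 2 (by omega) (by omega) {w, W.t ⟨0, hr⟩ (f ⟨0, hr⟩)} {W.c} ?_ ?_ (by simp) ?_
    · intro y hy
      rw [Finset.mem_insert, Finset.mem_singleton] at hy
      apply hS'
      rcases hy with rfl | rfl
      · exact Finset.mem_insert_self _ _
      · exact Finset.mem_insert_of_mem (Finset.mem_image_of_mem _ (Finset.mem_univ _))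
    · rw [Finset.card_pair]
      exact hw _ _
    · apply dom_of_TB
      refine ⟨by simp, fun j' hj' => ⟨f j', Finset.mem_union_left _ (Finset.mem_sdiff.mpr
        ⟨hS' (Finset.mem_insert_of_mem (Finset.mem_image_of_mem _ (Finset.mem_univ _))), ?_⟩)⟩⟩
      intro hmem
      rw [Finset.mem_insert, Finset.mem_singleton] at hmem
      rcases hmem with hmem | hmem
      · exact hw _ _ hmem.symm
      · injection hmem with h1 h2
        rw [h1] at hj'
        simp at hj'

/-- the graph is connected -/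
theorem connected_Gr : (Gr r N).Connected := by
  rw [SimpleGraph.connected_iff_exists_forall_reachable]
  refine ⟨W.c, fun w => ?_⟩
  have hx : ∀ k i, (Gr r N).Reachable W.c (W.x k i) := fun k i =>
    SimpleGraph.Adj.reachable ((SimpleGraph.fromRel_adj _ _ _).mpr ⟨by simp, Or.inl trivial⟩)
  cases w with
  | z =>
    exact SimpleGraph.Adj.reachable
      ((SimpleGraph.fromRel_adj _ _ _).mpr ⟨by simp, Or.inr trivial⟩)
  | c => exact SimpleGraph.Reachable.refl _
  | x k i => exact hx k i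
  | t j f =>
    refine (hx j (f j)).trans (SimpleGraph.Adj.reachable
      ((SimpleGraph.fromRel_adj _ _ _).mpr ⟨by simp, Or.inl ⟨le_rfl, rfl⟩⟩))

end construction

/-! ### The case `m 1 = r`: the corona of a complete graph -/

section corona

/-- adjacency relation of the corona of the complete graph -/
def crel (r : ℕ) : Fin r × Bool → Fin r × Bool → Prop :=
  fun a b => a.1 = b.1 ∨ (a.2 = false ∧ b.2 = false)

/-- the corona of the complete graph -/
def Cor (r : ℕ) : SimpleGraph (Fin r × Bool) := SimpleGraph.fromRel (crel r)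

lemma cor_dom {r : ℕ} {S : Finset (Fin r × Bool)} (h : IsDominating (Cor r) S) (i : Fin r) :
    ∃ b, (i, b) ∈ S := by
  by_contra hcon
  push Not at hcon
  obtain ⟨⟨j, b⟩, hs, ha⟩ := h (i, true) (hcon true)
  have := ((SimpleGraph.fromRel_adj _ _ _).mp ha).2
  simp only [crel] at this
  have hij : i = j := by
    rcases this with (h | h) | (h | h)
    · exact h
    · simp at h
    · exact h.symm
    · simp at h
  subst hij
  exact hcon b hs

lemma dom_cor {r : ℕ} {S : Finset (Fin r × Bool)} (h : ∀ i, ∃ b, (i, b) ∈ S) :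
    IsDominating (Cor r) S := by
  rintro ⟨i, b⟩ hv
  obtain ⟨b', hb'⟩ := h i
  refine ⟨_, hb', (SimpleGraph.fromRel_adj _ _ _).mpr ⟨?_, Or.inl (Or.inl rfl)⟩⟩
  rintro h
  exact hv (h ▸ hb')

lemma cor_card {r : ℕ} {S : Finset (Fin r × Bool)} (h : IsDominating (Cor r) S) :
    r ≤ S.card := by
  classical
  have : (Finset.univ : Finset (Fin r)) ⊆ S.image Prod.fst := by
    intro i _
    obtain ⟨b, hb⟩ := cor_dom h i
    exact Finset.mem_image.mpr ⟨_, hb, rfl⟩
  have h2 := (Finset.card_le_card this).trans Finset.card_image_le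
  simpa using h2

lemma cor_sub {r : ℕ} {S : Finset (Fin r × Bool)} (h : IsDominating (Cor r) S) :
    ∃ S' ⊆ S, (∀ S'' : Finset (Fin r × Bool), S' ⊆ S'' → IsDominating (Cor r) S'') ∧
      S'.card ≤ r := by
  classical
  choose b hb using cor_dom h
  refine ⟨Finset.univ.image (fun i => (i, b i)), ?_, ?_, ?_⟩
  · intro y hy
    obtain ⟨i, -, rfl⟩ := Finset.mem_image.mp hy
    exact hb i
  · intro S'' hS''
    exact dom_cor fun i => ⟨b i, hS'' (Finset.mem_image_of_mem _ (Finset.mem_univ _))⟩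
  · exact Finset.card_image_le.trans (by simp)

lemma cor_gamma (r : ℕ) : dominationNumber (Cor r) = r := by
  apply le_antisymm
  · obtain ⟨S', -, h1, h2⟩ := cor_sub (isDominating_univ (Cor r))
    exact (dominationNumber_le _ (h1 S' (Finset.Subset.refl _))).trans h2
  · obtain ⟨S, hS, hc⟩ := exists_card_eq (Cor r)
    rw [← hc]
    exact cor_card hS

lemma cor_upper (r k : ℕ) (hk : 1 ≤ k) : upperDomination (Cor r) k = r := by
  apply le_antisymm
  · apply upperDomination_le
    intro X hX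
    obtain ⟨S', h0, h1, h2⟩ := cor_sub hX.1
    rw [eq_of_subset hk hX h0 h1]
    exact h2
  · conv_lhs => rw [← cor_gamma r]
    exact dominationNumber_le_upperDomination _ _

lemma cor_connected (r : ℕ) (hr : 0 < r) : (Cor r).Connected := by
  rw [SimpleGraph.connected_iff_exists_forall_reachable]
  refine ⟨(⟨0, hr⟩, false), fun w => ?_⟩
  obtain ⟨i, b⟩ := w
  have h1 : (Cor r).Reachable (⟨0, hr⟩, false) (i, false) := by
    by_cases h : (⟨0, hr⟩ : Fin r) = i
    · rw [h]
    · exact SimpleGraph.Adj.reachable ((SimpleGraph.fromRel_adj _ _ _).mpr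
        ⟨by simpa using h, Or.inl (Or.inr ⟨rfl, rfl⟩)⟩)
  cases b with
  | false => exact h1
  | true =>
    exact h1.trans (SimpleGraph.Adj.reachable ((SimpleGraph.fromRel_adj _ _ _).mpr
      ⟨by simp, Or.inl (Or.inl rfl)⟩))

end corona

/-- A sequence `m 1, ..., m r` (`r ≥ 1`) is a domination sequence, i.e. some finite graph `G` has
`γ(G) = r` and `Γ_k(G) = m k` for `k = 1, ..., r`, if and only if `m 1 ≥ ... ≥ m r ≥ r`; and then
`G` can be chosen connected. -/
theorem result (r : ℕ) (hr : 1 ≤ r) (m : ℕ → ℕ) : List.TFAE [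
    ∃ (V : Type) (_ : Fintype V) (G : SimpleGraph V), Realizes G r m,
    ∃ (V : Type) (_ : Fintype V) (G : SimpleGraph V), G.Connected ∧ Realizes G r m,
    (∀ k, 1 ≤ k → k < r → m (k + 1) ≤ m k) ∧ r ≤ m r] := by
  tfae_have 2 → 1 := fun ⟨V, i, G, _, h⟩ => ⟨V, i, G, h⟩
  tfae_have 1 → 3 := by
    rintro ⟨V, i, G, h1, h2⟩
    constructor
    · intro k hk1 hk2
      rw [← h2 k hk1 hk2.le, ← h2 (k + 1) (by omega) (by omega)]
      exact upperDomination_anti G (Nat.le_succ k)
    · rw [← h2 r hr le_rfl]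
      conv_lhs => rw [← h1]
      exact dominationNumber_le_upperDomination _ _
  tfae_have 3 → 2 := by
    rintro ⟨hmono, hmr⟩
    have hanti : ∀ d a : ℕ, 1 ≤ a → a + d ≤ r → m (a + d) ≤ m a := by
      intro d
      induction d with
      | zero => intro a _ _; exact le_rfl
      | succ d ih =>
        intro a ha had
        exact (hmono (a + d) (by omega) (by omega)).trans (ih a ha (by omega))
    have hanti' : ∀ a b : ℕ, 1 ≤ a → a ≤ b → b ≤ r → m b ≤ m a := by
      intro a b ha hab hb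
      obtain ⟨d, rfl⟩ := Nat.exists_eq_add_of_le hab
      exact hanti d a ha hb
    have hge : ∀ a : ℕ, 1 ≤ a → a ≤ r → r ≤ m a := fun a ha har =>
      hmr.trans (hanti' a r ha har le_rfl)
    by_cases h1 : m 1 ≤ r
    · refine ⟨Fin r × Bool, inferInstance, Cor r, cor_connected r hr, cor_gamma r, ?_⟩
      intro k hk1 hk2
      rw [cor_upper r k hk1]
      exact le_antisymm (hge k hk1 hk2) ((hanti' 1 k le_rfl hk1 hk2).trans h1)
    · push Not at h1
      have hN : ∀ k : Fin r, (k : ℕ) + 1 ≤ (fun k : Fin r => m (k + 1) + (k + 1) - r) k := by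
        intro k
        have h2 := hge (k + 1) (by omega) (by omega)
        simp only
        omega
      refine ⟨W r (fun k : Fin r => m (k + 1) + (k + 1) - r), inferInstance, Gr r _,
        connected_Gr, gamma_eq hr hN, ?_⟩
      intro j hj1 hj2
      apply le_antisymm
      · apply upperDomination_le
        intro X hX
        rcases kminimal_le hr hN j hj1 hX with ⟨k, h2, h3⟩ | h2 | ⟨rfl, h2⟩
        · have h4 := hge (k + 1) (by omega) (by omega)
          have h5 := hge j hj1 hj2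
          have h6 := k.isLt
          by_cases h7 : j ≤ k + 1
          · have h8 := hanti' j (k + 1) hj1 h7 (by omega)
            omega
          · omega
        · exact h2.trans (hge j hj1 hj2)
        · omega
      · obtain ⟨S, h2, h3⟩ := exists_kminimal hN (⟨j - 1, by omega⟩ : Fin r)
        have hj' : j - 1 + 1 = j := by omega
        simp only [hj'] at h2 h3
        have h4 := le_upperDomination _ h2
        have h5 := hge j hj1 hj2
        omega
  tfae_finish

end Pool.Agent.Results.MP_e4a648_co.AllSequences
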